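import Pool.Agent.W97.V20.Stm

/-!
# MZ-GRP: the square of the augmentation ideal of `R[G]`, `G` of order 2
-/

namespace Pool.Agent.W417.V20.GRP

open Pool.Agent.W97.V20

theorem lift_eq {G : Type} [CommGroup G] {g : G} (hc : ∀ h : G, h = 1 ∨ h = g) (hne : 1 ≠ g)
    (R : Type) [CommRing R] (F : G →* R) (x : MonoidAlgebra R G) :
    MonoidAlgebra.lift R R G F x = x.coeff 1 + x.coeff g * F g := by
  classical
  rw [MonoidAlgebra.lift_apply]
  have hs : x.coeff.support ⊆ {1, g} := by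
    intro h _
    rw [Finset.mem_insert, Finset.mem_singleton]
    exact hc h
  rw [Finsupp.sum_of_support_subset x.coeff hs (fun a b => b • F a) (fun i _ => zero_smul _ _),
    Finset.sum_pair hne, map_one F]
  simp

theorem abs_grp {G : Type} [CommGroup G] {g : G} (hc : ∀ h : G, h = 1 ∨ h = g) (hne : 1 ≠ g)
    (R : Type) [CommRing R] (F : G →* R) (hF : F g = -1) (θ : MonoidAlgebra R G)
    (hθ : θ ∈ aug R G ^ 2) : ∃ r : R, 2 * θ.coeff 1 = 2 ^ 2 * r := by
  let φ : MonoidAlgebra R G →+* R := (MonoidAlgebra.lift R R G F).toRingHom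
  have hφ : ∀ x ∈ aug R G, φ x = 2 * x.coeff 1 := by
    intro x hx
    have h1 : MonoidAlgebra.lift R R G (1 : G →* R) x = 0 := hx
    rw [lift_eq hc hne, MonoidHom.one_apply, mul_one] at h1
    show MonoidAlgebra.lift R R G F x = _
    rw [lift_eq hc hne, hF]
    linear_combination -h1
  have h1 : aug R G ≤ Ideal.comap φ (Ideal.span {2}) := by
    intro x hx
    rw [Ideal.mem_comap, hφ x hx]
    exact Ideal.mem_span_singleton.2 (Dvd.intro _ rfl)
  have h2 : θ ∈ Ideal.comap φ (Ideal.span {2} ^ 2) :=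
    (Ideal.le_comap_pow φ 2) (Ideal.pow_right_mono h1 2 hθ)
  rw [Ideal.mem_comap, Ideal.span_singleton_pow, Ideal.mem_span_singleton] at h2
  obtain ⟨r, hr⟩ := h2
  have h3 : θ ∈ aug R G := Ideal.pow_le_self two_ne_zero hθ
  rw [hφ θ h3] at hr
  exact ⟨r, hr⟩

/-- The quadratic character of `(ℤ/5)ˣ`. -/
def chi0 : (ZMod 5)ˣ →* ℤˣ where
  toFun a := if a ^ 2 = 1 then 1 else -1
  map_one' := by decide
  map_mul' := by decide

/-- The nontrivial character of `G_5`. -/
def chi : GM 5 →* ℤˣ := QuotientGroup.lift _ chi0 (by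
  rw [Subgroup.zpowers_le]
  decide)

/-- `2` as a unit. -/
def two : (ZMod 5)ˣ := ⟨2, 3, by decide, by decide⟩

theorem unit_cases : ∀ u : (ZMod 5)ˣ, u = 1 ∨ u = -1 ∨ u = two ∨ u = (-1) * two := by
  decide

theorem cases (h : GM 5) : h = 1 ∨ h = QuotientGroup.mk two := by
  obtain ⟨u, rfl⟩ := QuotientGroup.mk_surjective h
  have h1 : (QuotientGroup.mk (-1 : (ZMod 5)ˣ) : GM 5) = 1 :=
    (QuotientGroup.eq_one_iff _).2 (Subgroup.mem_zpowers _)
  rcases unit_cases u with rfl | rfl | rfl | rfl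
  · left; rfl
  · left; exact h1
  · right; rfl
  · right
    rw [QuotientGroup.mk_mul, h1]
    exact one_mul (QuotientGroup.mk two : GM 5)

theorem chi_two : chi (QuotientGroup.mk two) = -1 := by
  show chi0 two = -1
  decide

theorem ne_two : (1 : GM 5) ≠ QuotientGroup.mk two := by
  intro h
  have h1 := congrArg chi h
  rw [map_one, chi_two] at h1
  exact absurd h1 (by decide)

theorem s_grp : S_GRP := by
  intro R hR θ hθ
  let F : GM 5 →* R := ((Int.castRingHom R).toMonoidHom.comp (Units.coeHom ℤ)).comp chi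
  have hF : F (QuotientGroup.mk two) = -1 := by
    show ((chi (QuotientGroup.mk two) : ℤˣ) : ℤ) = (-1 : R)
    rw [chi_two]
    simp
  obtain ⟨r, hr⟩ := abs_grp cases ne_two R F hF θ hθ
  obtain ⟨n, hn⟩ := hR r.1 r.2
  refine ⟨n, ?_⟩
  have h4 : ((2 * θ.coeff 1 : R) : ℚ) = ((2 ^ 2 * r : R) : ℚ) := congrArg _ hr
  have h5 : (2 : ℚ) * ((θ.coeff 1 : R) : ℚ) = 2 ^ 2 * (r : ℚ) := h4
  rw [hn] at h5
  linarith

end Pool.Agent.W417.V20.GRP
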