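import Pool.Agent.W97.V20.Stm

/-!
# MZ-TWIST: the point counts of the quadratic twist by 13
-/

namespace Pool.Agent.W417.V20.TWIST

open Pool.Agent.W97.V20
open Pool.Agent.W97.MT (affCount ap)
open Finset

theorem affCount_eq (a b : ℤ) (p : ℕ) [Fact p.Prime] :
    affCount (⟨0, a, 0, b, 0⟩ : WeierstrassCurve ℤ) p =
      Fintype.card {P : ZMod p × ZMod p // P.2 ^ 2 = P.1 ^ 3 + a * P.1 ^ 2 + b * P.1} := by
  unfold affCount
  rw [← Nat.card_eq_fintype_card]
  refine Nat.card_congr (Equiv.subtypeEquivRight fun P => ?_)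
  rw [WeierstrassCurve.Affine.equation_iff]
  simp

theorem ap_eq (a b : ℤ) (p : ℕ) [Fact p.Prime] (hp : p ≠ 2) :
    ap (⟨0, a, 0, b, 0⟩ : WeierstrassCurve ℤ) p =
      -∑ x : ZMod p, quadraticChar (ZMod p) (x ^ 3 + a * x ^ 2 + b * x) := by
  classical
  have hchar : ringChar (ZMod p) ≠ 2 := by
    rw [ZMod.ringChar_zmod_n]
    exact hp
  have e2 : Fintype.card {P : ZMod p × ZMod p // P.2 ^ 2 = P.1 ^ 3 + a * P.1 ^ 2 + b * P.1} =
      ∑ x : ZMod p, Fintype.card {y : ZMod p // y ^ 2 = x ^ 3 + a * x ^ 2 + b * x} := by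
    rw [← Fintype.card_sigma]
    exact Fintype.card_congr ⟨fun P => ⟨P.1.1, P.1.2, P.2⟩, fun P => ⟨(P.1, P.2.1), P.2.2⟩,
      fun _ => rfl, fun _ => rfl⟩
  have e3 : ∀ x : ZMod p,
      ((Fintype.card {y : ZMod p // y ^ 2 = x ^ 3 + a * x ^ 2 + b * x} : ℕ) : ℤ) =
      quadraticChar (ZMod p) (x ^ 3 + a * x ^ 2 + b * x) + 1 := by
    intro x
    rw [← quadraticChar_card_sqrts hchar, Set.toFinset_card]
    rfl
  unfold ap
  rw [affCount_eq, e2]
  push_cast
  rw [sum_congr rfl (fun x _ => e3 x), sum_add_distrib]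
  simp

theorem e13_two : ap E13 2 = 0 := by
  unfold ap E13
  rw [affCount_eq]
  have : Fintype.card {P : ZMod 2 × ZMod 2 // P.2 ^ 2 = P.1 ^ 3 + ((-143 : ℤ) : ZMod 2) *
      P.1 ^ 2 + ((-169 : ℤ) : ZMod 2) * P.1} = 2 := by decide
  rw [this]
  norm_num

theorem e4_two : ap E4 2 = 0 := by
  unfold ap E4
  rw [affCount_eq]
  have : Fintype.card {P : ZMod 2 × ZMod 2 // P.2 ^ 2 = P.1 ^ 3 + ((-11 : ℤ) : ZMod 2) *
      P.1 ^ 2 + ((-1 : ℤ) : ZMod 2) * P.1} = 2 := by decide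
  rw [this]
  norm_num

theorem m143 : ((-143 : ℤ) : ZMod 13) = 0 := by decide

theorem m169 : ((-169 : ℤ) : ZMod 13) = 0 := by decide

theorem s_twist : S_TWIST := by
  intro p hp
  have : Fact p.Prime := ⟨hp⟩
  by_cases h2 : p = 2
  · subst h2
    rw [e13_two, e4_two, mul_zero]
  by_cases h13 : p = 13
  · subst h13
    have h3 : jacobiSym ((13 : ℕ) : ℤ) 13 = 0 := by norm_num
    rw [h3, zero_mul]
    unfold E13
    rw [ap_eq _ _ 13 (by norm_num), neg_eq_zero]
    have hchar : ringChar (ZMod 13) ≠ 2 := by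
      rw [ZMod.ringChar_zmod_n]
      norm_num
    rw [← quadraticChar_sum_zero hchar]
    refine sum_congr rfl fun x _ => ?_
    rw [m143, m169, zero_mul, zero_mul, add_zero, add_zero, map_pow]
    by_cases hx : x = 0
    · subst hx
      simp
    · rw [pow_succ, quadraticChar_sq_one hx, one_mul]
  have h13' : (13 : ZMod p) ≠ 0 := by
    intro h
    have h1 : ((13 : ℕ) : ZMod p) = 0 := by exact_mod_cast h
    rw [ZMod.natCast_eq_zero_iff] at h1
    exact h13 ((Nat.prime_dvd_prime_iff_eq hp (by norm_num)).1 h1)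
  have h3 : ap E13 p = quadraticChar (ZMod p) 13 * ap E4 p := by
    unfold E13 E4
    rw [ap_eq _ _ p h2, ap_eq _ _ p h2, mul_neg, mul_sum]
    congr 1
    symm
    refine Fintype.sum_equiv (Equiv.mulLeft₀ (13 : ZMod p) h13') _ _ fun x => ?_
    have h4 : quadraticChar (ZMod p) 13 = quadraticChar (ZMod p) (13 ^ 3) := by
      rw [pow_succ, map_mul, quadraticChar_sq_one' h13', one_mul]
    rw [h4, ← map_mul, Equiv.mulLeft₀_apply]
    congr 1
    push_cast
    ring
  rw [h3]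
  congr 1
  have h5 : quadraticChar (ZMod p) 13 = legendreSym p 13 := by
    rw [legendreSym]
    norm_num
  have hodd : Odd p := hp.odd_of_ne_two h2
  rw [h5, jacobiSym.legendreSym.to_jacobiSym]
  exact jacobiSym.quadratic_reciprocity_one_mod_four (a := 13) (by norm_num) hodd

end Pool.Agent.W417.V20.TWIST
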